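import Mathlib

open Set Filter

namespace Pool.Agent.Results.MP_aa1901_an.ZFCCounterexample

/-- A free filter on the natural numbers: a proper filter containing every cofinite set. -/
def IsFree (F : Filter ℕ) : Prop :=
  F.NeBot ∧ ∀ A : Set ℕ, Aᶜ.Finite → A ∈ F

/-- The ideal `I(F)` dual to `F`: the complements of the members of `F`. -/
def InIdeal (F : Filter ℕ) (A : Set ℕ) : Prop := Aᶜ ∈ F

/-- `F` is conglomerated: there are pairwise disjoint sets in `I(F)` such that the union of every
infinite subfamily lies outside `I(F)`. -/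
def Conglomerated (F : Filter ℕ) : Prop :=
  ∃ D : ℕ → Set ℕ, (∀ n, InIdeal F (D n)) ∧ (∀ m n, m ≠ n → Disjoint (D m) (D n)) ∧
    ∀ M : Set ℕ, M.Infinite → ¬ InIdeal F (⋃ n ∈ M, D n)

/-- A statistical measure: finitely additive, nonnegative, total mass one, null on singletons. -/
def IsStatisticalMeasure (μ : Set ℕ → ℝ) : Prop :=
  (∀ A, 0 ≤ μ A) ∧ (∀ A B, Disjoint A B → μ (A ∪ B) = μ A + μ B) ∧
    μ Set.univ = 1 ∧ ∀ k : ℕ, μ {k} = 0

/-! ### Finitely additive measures and almost disjoint families -/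

section measure

variable {μ : Set ℕ → ℝ}

lemma mu_empty (h : IsStatisticalMeasure μ) : μ ∅ = 0 := by
  have := h.2.1 ∅ ∅ (by simp)
  simp at this
  exact this

lemma mu_mono (h : IsStatisticalMeasure μ) {A B : Set ℕ} (hAB : A ⊆ B) : μ A ≤ μ B := by
  have h1 := h.2.1 A (B \ A) disjoint_sdiff_right
  rw [Set.union_sdiff_cancel hAB] at h1
  have := h.1 (B \ A)
  linarith

lemma mu_compl (h : IsStatisticalMeasure μ) (A : Set ℕ) : μ Aᶜ = 1 - μ A := by
  have h1 := h.2.1 A Aᶜ disjoint_compl_right
  rw [Set.union_compl_self, h.2.2.1] at h1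
  linarith

lemma mu_union_of_inter_null (h : IsStatisticalMeasure μ) {A B : Set ℕ} (hAB : μ (A ∩ B) = 0) :
    μ (A ∪ B) = μ A + μ B := by
  have h1 := h.2.1 A (B \ A) disjoint_sdiff_right
  have h2 := h.2.1 (A ∩ B) (B \ A) (by
    rw [Set.disjoint_left]
    intro x hx hx'
    exact hx'.2 hx.1)
  have e1 : A ∪ (B \ A) = A ∪ B := Set.union_sdiff_self
  have e2 : (A ∩ B) ∪ (B \ A) = B := by
    rw [Set.inter_comm]
    exact Set.inter_union_sdiff B A
  rw [e1] at h1
  rw [e2] at h2
  linarith

lemma mu_union_null (h : IsStatisticalMeasure μ) {A B : Set ℕ} (hA : μ A = 0) (hB : μ B = 0) :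
    μ (A ∪ B) = 0 := by
  have h1 : μ (A ∩ B) = 0 :=
    le_antisymm (by rw [← hA]; exact mu_mono h Set.inter_subset_left) (h.1 _)
  rw [mu_union_of_inter_null h h1, hA, hB, add_zero]

/-- An almost disjoint family of sets of positive measure is countable. -/
lemma countable_of_ad (h : IsStatisticalMeasure μ) {ι : Type*} (A : ι → Set ℕ)
    (hpos : ∀ i, μ (A i) ≠ 0) (had : ∀ i j, i ≠ j → μ (A i ∩ A j) = 0) : Countable ι := by
  classical
  have key : ∀ s : Finset ι, μ (⋃ i ∈ s, A i) = ∑ i ∈ s, μ (A i) ∧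
      ∀ j, j ∉ s → μ ((⋃ i ∈ s, A i) ∩ A j) = 0 := by
    intro s
    induction s using Finset.induction_on with
    | empty => simp [mu_empty h]
    | insert a s ha ih =>
      have hun : (⋃ i ∈ insert a s, A i) = (⋃ i ∈ s, A i) ∪ A a := by
        rw [Finset.set_biUnion_insert, Set.union_comm]
      constructor
      · rw [hun, mu_union_of_inter_null h (ih.2 a ha), ih.1, Finset.sum_insert ha, add_comm]
      · intro j hj
        rw [hun, Set.union_inter_distrib_right]
        have hj1 : j ≠ a := fun e => hj (by rw [e]; exact Finset.mem_insert_self _ _)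
        have hj2 : j ∉ s := fun e => hj (Finset.mem_insert_of_mem e)
        exact mu_union_null h (ih.2 j hj2) (had a j (Ne.symm hj1))
  have hsum : Summable fun i => μ (A i) := by
    apply summable_of_sum_le (c := 1) (fun i => h.1 _)
    intro s
    rw [← (key s).1, ← h.2.2.1]
    exact mu_mono h (Set.subset_univ _)
  have hsupp : (Function.support fun i => μ (A i)) = Set.univ := by
    ext i
    simp [hpos i]
  have hc := hsum.countable_support
  rw [hsupp] at hc
  exact Set.countable_univ_iff.mp hc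

/-- If a free filter admits an uncountable family of positive sets with pairwise finite
intersections then it is not generated by a statistical measure. -/
lemma not_generated {F : Filter ℕ} (hF : IsFree F) {ι : Type*} [hι : Uncountable ι]
    (A : ι → Set ℕ) (hpos : ∀ i, (A i)ᶜ ∉ F) (had : ∀ i j, i ≠ j → (A i ∩ A j).Finite)
    (h : IsStatisticalMeasure μ) : ¬ ∀ B, B ∈ F ↔ μ B = 1 := by
  intro hB
  have : Countable ι := by
    apply countable_of_ad h A
    · intro i hi
      apply hpos i
      rw [hB, mu_compl h, hi, sub_zero]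
    · intro i j hij
      have h1 : (A i ∩ A j)ᶜ ∈ F := hF.2 _ (by rw [compl_compl]; exact had i j hij)
      rw [hB, mu_compl h] at h1
      linarith
  exact (not_countable (α := ι)) this

end measure

/-! ### The branches of the binary tree, coded by natural numbers -/

/-- The code of the initial segment of length `n` of the branch `x`. -/
def node (x : ℕ → Bool) (n : ℕ) : ℕ :=
  Encodable.encode (List.ofFn fun i : Fin n => x i)

lemma node_eq_iff {x y : ℕ → Bool} {n m : ℕ} :
    node x n = node y m ↔ n = m ∧ ∀ i < n, x i = y i := by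
  unfold node
  rw [Encodable.encode_inj]
  constructor
  · intro h
    have hl := congrArg List.length h
    simp only [List.length_ofFn] at hl
    subst hl
    refine ⟨rfl, fun i hi => ?_⟩
    have := List.ofFn_injective h
    exact congrFun this ⟨i, hi⟩
  · rintro ⟨rfl, h⟩
    congr 1
    funext i
    exact h i i.2

/-- The set of codes of initial segments of `x`. -/
def branch (x : ℕ → Bool) : Set ℕ := Set.range (node x)

lemma node_injective (x : ℕ → Bool) : Function.Injective (node x) := by
  intro n m h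
  exact (node_eq_iff.mp h).1

lemma branch_infinite (x : ℕ → Bool) : (branch x).Infinite :=
  Set.infinite_range_of_injective (node_injective x)

lemma branch_ad {x y : ℕ → Bool} (h : x ≠ y) : (branch x ∩ branch y).Finite := by
  obtain ⟨k, hk⟩ := Function.ne_iff.mp h
  apply Set.Finite.subset ((Set.finite_Iic k).image (node x))
  rintro z ⟨⟨n, rfl⟩, ⟨m, hm⟩⟩
  obtain ⟨rfl, h2⟩ := node_eq_iff.mp hm
  refine ⟨m, ?_, rfl⟩
  by_contra hlt
  simp only [Set.mem_Iic, not_le] at hlt
  exact hk (h2 k hlt).symm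

/-! ### The case where the continuum hypothesis fails -/

section notCH

/-- An ultrafilter containing the branch `x` and all cofinite sets. -/
lemma exists_ultra (x : ℕ → Bool) :
    ∃ U : Ultrafilter ℕ, branch x ∈ U ∧ ∀ A : Set ℕ, Aᶜ.Finite → A ∈ U := by
  have hne : (cofinite ⊓ 𝓟 (branch x)).NeBot := by
    rw [Filter.inf_principal_neBot_iff]
    intro A hA
    rw [mem_cofinite] at hA
    by_contra hc
    rw [Set.not_nonempty_iff_eq_empty] at hc
    apply branch_infinite x
    apply hA.subset
    intro z hz hz'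
    have : z ∈ A ∩ branch x := ⟨hz', hz⟩
    rw [hc] at this
    exact this
  refine ⟨Ultrafilter.of (cofinite ⊓ 𝓟 (branch x)), ?_, ?_⟩
  · exact Ultrafilter.of_le _ (Filter.mem_inf_of_right (mem_principal_self _))
  · intro A hA
    exact Ultrafilter.of_le _ (Filter.mem_inf_of_left (by rwa [mem_cofinite]))

theorem exists_of_notCH (h : (Cardinal.aleph 1 : Cardinal.{0}) < Cardinal.continuum) :
    ∃ F : Filter ℕ, IsFree F ∧ ¬ Conglomerated F ∧
      ∀ μ : Set ℕ → ℝ, IsStatisticalMeasure μ → ¬ ∀ B, B ∈ F ↔ μ B = 1 := by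
  have hcard : Cardinal.mk (ℕ → Bool) = Cardinal.continuum := by simp
  obtain ⟨S, hS⟩ : ∃ S : Set (ℕ → Bool), Cardinal.mk S = Cardinal.aleph 1 := by
    apply Cardinal.le_mk_iff_exists_set.mp
    rw [hcard]
    exact h.le
  choose U hU1 hU2 using exists_ultra
  have hSunc : Uncountable S := by
    rw [← Cardinal.aleph0_lt_mk_iff, hS]
    exact Cardinal.aleph0_lt_aleph_one
  have hSne : Nonempty S := inferInstance
  let F : Filter ℕ := ⨆ x : S, (U x.1 : Filter ℕ)
  have hmem : ∀ A : Set ℕ, A ∈ F ↔ ∀ x : S, A ∈ U x.1 := by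
    intro A
    exact Filter.mem_iSup
  have hfree : IsFree F := by
    refine ⟨?_, ?_⟩
    · obtain ⟨x⟩ := hSne
      exact Filter.NeBot.mono (U x.1).neBot (le_iSup (fun x : S => (U x.1 : Filter ℕ)) x)
    · intro A hA
      rw [hmem]
      intro x
      exact hU2 _ A hA
  refine ⟨F, hfree, ?_, ?_⟩
  · rintro ⟨D, hD, hdis, hM⟩
    have h1 : ∀ y : ℕ → Bool, ∃ x : S, (⋃ n ∈ branch y, D n) ∈ U x.1 := by
      intro y
      have := hM (branch y) (branch_infinite y)
      unfold InIdeal at this
      rw [hmem] at this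
      push Not at this
      obtain ⟨x, hx⟩ := this
      exact ⟨x, Ultrafilter.compl_notMem_iff.mp hx⟩
    choose φ hφ using h1
    have hninj : ¬ Function.Injective φ := by
      intro hinj
      have := Cardinal.mk_le_of_injective hinj
      rw [hcard, hS] at this
      exact absurd this (not_le.mpr h)
    rw [Function.Injective] at hninj
    push Not at hninj
    obtain ⟨y, y', hyy', hne⟩ := hninj
    have hx1 := hφ y
    have hx2 := hφ y'
    rw [← hyy'] at hx2
    have hx3 := Filter.inter_mem hx1 hx2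
    have hsub : (⋃ n ∈ branch y, D n) ∩ (⋃ n ∈ branch y', D n) ⊆
        ⋃ n ∈ branch y ∩ branch y', D n := by
      rintro z ⟨hz1, hz2⟩
      simp only [Set.mem_iUnion, exists_prop] at hz1 hz2 ⊢
      obtain ⟨n, hn, hzn⟩ := hz1
      obtain ⟨m, hm, hzm⟩ := hz2
      have hnm : n = m := by
        by_contra hne'
        exact (Set.disjoint_left.mp (hdis n m hne')) hzn hzm
      subst hnm
      exact ⟨n, ⟨hn, hm⟩, hzn⟩
    have hx4 := Filter.mem_of_superset hx3 hsub
    have hx5 : (⋃ n ∈ branch y ∩ branch y', D n)ᶜ ∈ (U (φ y).1 : Filter ℕ) := by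
      simp only [Set.compl_iUnion]
      rw [Filter.biInter_mem (branch_ad hne)]
      intro n _
      exact (hmem _).mp (hD n) (φ y)
    have hx6 := Filter.inter_mem hx4 hx5
    rw [Set.inter_compl_self] at hx6
    exact (U (φ y).1).empty_notMem hx6
  · intro μ hμ
    apply not_generated hfree (fun x : S => branch x.1)
    · intro x hx
      rw [hmem] at hx
      have := hx x
      exact (Ultrafilter.compl_mem_iff_notMem.mp this) (hU1 x.1)
    · intro x y hxy
      exact branch_ad (fun e => hxy (Subtype.ext e))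
    · exact hμ

end notCH

/-! ### The case where the continuum hypothesis holds -/

section CH

/-- The set `D` misses the level `n` of the tree. -/
def Misses (D : Set ℕ) (n : ℕ) : Prop := ∀ x : ℕ → Bool, node x n ∉ D

lemma not_misses_finite_of_finite {D : Set ℕ} (hD : D.Finite) : {n | ¬ Misses D n}.Finite := by
  have : {n | ¬ Misses D n} ⊆ (fun z => ((Encodable.decode z : Option (List Bool)).getD []).length) '' D := by
    intro n hn
    simp only [Misses, not_forall, not_not, Set.mem_ofPred_eq] at hn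
    obtain ⟨x, hx⟩ := hn
    exact ⟨_, hx, by simp [node]⟩
  exact (hD.image _).subset this

lemma level_finite (n : ℕ) : {z | ∃ x : ℕ → Bool, node x n = z}.Finite := by
  have : {z | ∃ x : ℕ → Bool, node x n = z} ⊆
      Set.range (fun v : Fin n → Bool => Encodable.encode (List.ofFn v)) := by
    rintro z ⟨x, rfl⟩
    exact ⟨fun i => x i, rfl⟩
  exact (Set.finite_range _).subset this

lemma rows_finite {D : ℕ → Set ℕ} (hdis : ∀ m n, m ≠ n → Disjoint (D m) (D n)) (n : ℕ) :
    {m | ¬ Misses (D m) n}.Finite := by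
  classical
  -- choose a witness on the level `n`
  have hw : ∀ m : {m | ¬ Misses (D m) n}, ∃ z, (∃ x : ℕ → Bool, node x n = z) ∧ z ∈ D m.1 := by
    rintro ⟨m, hm⟩
    simp only [Misses, not_forall, not_not, Set.mem_ofPred_eq] at hm
    obtain ⟨x, hx⟩ := hm
    exact ⟨_, ⟨x, rfl⟩, hx⟩
  choose w hw1 hw2 using hw
  have hinj : Function.Injective (fun m => (⟨w m, hw1 m⟩ : {z | ∃ x : ℕ → Bool, node x n = z})) := by
    intro m m' hmm
    have hww : w m = w m' := congrArg Subtype.val hmm
    by_contra hne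
    have hne' : m.1 ≠ m'.1 := fun e => hne (Subtype.ext e)
    exact Set.disjoint_left.mp (hdis _ _ hne') (hw2 m) (by rw [hww]; exact hw2 m')
  have hfin : Finite {z | ∃ x : ℕ → Bool, node x n = z} := (level_finite n).to_subtype
  exact Set.finite_coe_iff.mp (Finite.of_injective _ hinj)

/-- `Y` decides the sequence `D`. -/
def Decides (Y : Set ℕ) (D : ℕ → Set ℕ) : Prop :=
  (∀ m n, m ≠ n → Disjoint (D m) (D n)) →
    (∃ m, ∀ n ∈ Y, ¬ Misses (D m) n) ∨
      ∃ M : Set ℕ, M.Infinite ∧ ∀ n ∈ Y, ∀ m ∈ M, Misses (D m) n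

lemma exists_decides (D : ℕ → Set ℕ) {X : Set ℕ} (hX : X.Infinite) :
    ∃ Y ⊆ X, Y.Infinite ∧ Decides Y D := by
  classical
  by_cases hdis : ∀ m n, m ≠ n → Disjoint (D m) (D n)
  swap
  · exact ⟨X, subset_rfl, hX, fun h => absurd h hdis⟩
  by_cases hc : ∃ m, {n ∈ X | ¬ Misses (D m) n}.Infinite
  · obtain ⟨m, hm⟩ := hc
    exact ⟨_, fun n hn => hn.1, hm, fun _ => Or.inl ⟨m, fun n hn => hn.2⟩⟩
  push Not at hc
  -- rows and columns are finite
  obtain ⟨f, hf1, hf2⟩ := exists_seq_of_forall_finset_exists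
    (fun p : ℕ × ℕ => p.1 ∈ X ∧ Misses (D p.2) p.1)
    (fun p q : ℕ × ℕ => p.1 < q.1 ∧ p.2 < q.2 ∧ Misses (D q.2) p.1 ∧ Misses (D p.2) q.1) (by
      intro s hs
      -- choose the level
      have hfin1 : (⋃ p ∈ s, ({n ∈ X | ¬ Misses (D p.2) n} ∪ Set.Iic p.1)).Finite := by
        apply Set.Finite.biUnion s.finite_toSet
        intro p _
        exact (hc p.2).union (Set.finite_Iic _)
      obtain ⟨n, hn1, hn2⟩ := hX.exists_notMem_finite hfin1
      have hfin2 : ({m | ¬ Misses (D m) n} ∪ ⋃ p ∈ s, ({m | ¬ Misses (D m) p.1} ∪ Set.Iic p.2)).Finite := by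
        apply (rows_finite hdis n).union
        apply Set.Finite.biUnion s.finite_toSet
        intro p _
        exact (rows_finite hdis p.1).union (Set.finite_Iic _)
      obtain ⟨m, hm1, hm2⟩ := Set.infinite_univ.exists_notMem_finite hfin2
      simp only [Set.mem_iUnion, Set.mem_union, Set.mem_ofPred_eq, Set.mem_Iic, exists_prop,
        not_exists, not_and, not_or, not_not, not_le] at hn2 hm2
      refine ⟨(n, m), ⟨hn1, hm2.1⟩, ?_⟩
      intro p hp
      exact ⟨(hn2 p hp).2, (hm2.2 p hp).2, (hm2.2 p hp).1, (hn2 p hp).1 hn1⟩)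
  refine ⟨Set.range fun k => (f k).1, ?_, ?_, fun _ => Or.inr ⟨Set.range fun k => (f k).2, ?_, ?_⟩⟩
  · rintro _ ⟨k, rfl⟩
    exact (hf1 k).1
  · apply Set.infinite_range_of_injective
    apply StrictMono.injective
    intro a b hab
    exact (hf2 a b hab).1
  · apply Set.infinite_range_of_injective
    apply StrictMono.injective
    intro a b hab
    exact (hf2 a b hab).2.1
  · rintro _ ⟨a, rfl⟩ _ ⟨b, rfl⟩
    rcases lt_trichotomy a b with hab | hab | hab
    · exact (hf2 a b hab).2.2.1
    · subst hab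
      exact (hf1 a).2
    · exact (hf2 b a hab).2.2.2

lemma almost_trans {A B C : Set ℕ} (h1 : (A \ B).Finite) (h2 : (B \ C).Finite) :
    (A \ C).Finite := by
  apply (h1.union h2).subset
  rintro x ⟨hxA, hxC⟩
  by_cases hxB : x ∈ B
  · exact Or.inr ⟨hxB, hxC⟩
  · exact Or.inl ⟨hxA, hxB⟩

/-- A countable chain of infinite sets has an infinite pseudo-intersection. -/
lemma exists_pseudo {κ : Type*} [Countable κ] (X : κ → Set ℕ) (hX : ∀ i, (X i).Infinite)
    (hch : ∀ i j, (X i \ X j).Finite ∨ (X j \ X i).Finite) :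
    ∃ P : Set ℕ, P.Infinite ∧ ∀ i, (P \ X i).Finite := by
  classical
  rcases isEmpty_or_nonempty κ with hκ | hκ
  · exact ⟨Set.univ, Set.infinite_univ, fun i => (hκ.false i).elim⟩
  obtain ⟨f, hf⟩ := exists_surjective_nat κ
  have hmin : ∀ n : ℕ, ∃ i, ∀ k ≤ n, (X i \ X (f k)).Finite := by
    intro n
    induction n with
    | zero =>
      refine ⟨f 0, fun k hk => ?_⟩
      obtain rfl : k = 0 := by omega
      simp
    | succ n ih =>
      obtain ⟨i, hi⟩ := ih
      rcases hch i (f (n + 1)) with h | h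
      · refine ⟨i, fun k hk => ?_⟩
        rcases Nat.lt_or_ge n k with hlt | hle
        · obtain rfl : k = n + 1 := by omega
          exact h
        · exact hi k hle
      · refine ⟨f (n + 1), fun k hk => ?_⟩
        rcases Nat.lt_or_ge n k with hlt | hle
        · obtain rfl : k = n + 1 := by omega
          simp
        · exact almost_trans h (hi k hle)
  have hfreq : ∀ n : ℕ, ∃ᶠ k in atTop, ∀ j ≤ n, k ∈ X (f j) := by
    intro n
    rw [Nat.frequently_atTop_iff_infinite]
    obtain ⟨i, hi⟩ := hmin n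
    have hbad : (⋃ j ∈ Finset.Iic n, (X i \ X (f j))).Finite := by
      apply Set.Finite.biUnion (Finset.finite_toSet _)
      intro j hj
      exact hi j (by simpa using hj)
    apply ((hX i).sdiff hbad).mono
    rintro x ⟨hx1, hx2⟩ j hj
    by_contra hc
    apply hx2
    simp only [Set.mem_iUnion, exists_prop]
    exact ⟨j, by simpa using hj, hx1, hc⟩
  obtain ⟨φ, hφ1, hφ2⟩ := extraction_forall_of_frequently hfreq
  refine ⟨Set.range φ, Set.infinite_range_of_injective hφ1.injective, fun i => ?_⟩
  obtain ⟨j, rfl⟩ := hf i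
  apply ((Set.finite_Iio j).image φ).subset
  rintro _ ⟨⟨n, rfl⟩, hn⟩
  refine ⟨n, ?_, rfl⟩
  by_contra hc
  simp only [Set.mem_Iio, not_lt] at hc
  exact hn (hφ2 n j hc)

lemma exists_wo {α : Type} (h : Cardinal.mk α = Cardinal.aleph 1) :
    ∃ r : α → α → Prop, IsWellOrder α r ∧ ∀ x, {y | r y x}.Countable := by
  obtain ⟨r, wo, hr⟩ := Cardinal.exists_ord_eq α
  refine ⟨r, wo, fun x => ?_⟩
  have h1 := Ordinal.typein_lt_type r x
  rw [← hr, Cardinal.lt_ord, h] at h1
  rw [← Cardinal.le_aleph0_iff_set_countable, ← Order.lt_succ_iff, Cardinal.succ_aleph0]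
  exact h1

open Classical in
/-- The tower. -/
noncomputable def tower (r : (ℕ → Set ℕ) → (ℕ → Set ℕ) → Prop) (hr : WellFounded r) :
    (ℕ → Set ℕ) → Set ℕ :=
  hr.fix fun D T =>
    if h : ∃ Y : Set ℕ, Y.Infinite ∧ (∀ E (hE : r E D), (Y \ T E hE).Finite) ∧ Decides Y D
    then Classical.choose h else ∅

lemma tower_spec {r : (ℕ → Set ℕ) → (ℕ → Set ℕ) → Prop} [wo : IsWellOrder (ℕ → Set ℕ) r]
    (hc : ∀ D, {E | r E D}.Countable) (D : ℕ → Set ℕ) :
    (tower r wo.wf D).Infinite ∧ (∀ E, r E D → (tower r wo.wf D \ tower r wo.wf E).Finite) ∧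
      Decides (tower r wo.wf D) D := by
  induction D using wo.wf.induction with
  | _ D ih =>
    have hex : ∃ Y : Set ℕ, Y.Infinite ∧ (∀ E (_ : r E D), (Y \ tower r wo.wf E).Finite) ∧
        Decides Y D := by
      have hcount : Countable {E | r E D} := (hc D).to_subtype
      obtain ⟨P, hP1, hP2⟩ := exists_pseudo (fun E : {E | r E D} => tower r wo.wf E.1)
        (fun E => (ih E.1 E.2).1) (by
          rintro ⟨E, hE⟩ ⟨E', hE'⟩
          rcases trichotomous_of r E E' with h | h | h
          · exact Or.inr ((ih E' hE').2.1 E h)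
          · subst h
            simp
          · exact Or.inl ((ih E hE).2.1 E' h))
      obtain ⟨Y, hY1, hY2, hY3⟩ := exists_decides D hP1
      refine ⟨Y, hY2, fun E hE => ?_, hY3⟩
      exact (hP2 ⟨E, hE⟩).subset (Set.sdiff_subset_sdiff_left hY1)
    have hval : tower r wo.wf D = Classical.choose hex := by
      conv_lhs => rw [tower, WellFounded.fix_eq]
      exact dif_pos hex
    rw [hval]
    exact Classical.choose_spec hex

theorem exists_of_CH (h : (Cardinal.continuum : Cardinal.{0}) = Cardinal.aleph 1) :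
    ∃ F : Filter ℕ, IsFree F ∧ ¬ Conglomerated F ∧
      ∀ μ : Set ℕ → ℝ, IsStatisticalMeasure μ → ¬ ∀ B, B ∈ F ↔ μ B = 1 := by
  have hcard : Cardinal.mk (ℕ → Set ℕ) = Cardinal.aleph 1 := by
    rw [← h]
    simp
  obtain ⟨r, wo, hc⟩ := exists_wo hcard
  have spec := fun D => tower_spec (r := r) hc D
  set T : (ℕ → Set ℕ) → Set ℕ := tower r wo.wf with hT
  have hchain : ∀ D E, (T D \ T E).Finite ∨ (T E \ T D).Finite := by
    intro D E
    rcases trichotomous_of r D E with h | h | h
    · exact Or.inr ((spec E).2.1 D h)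
    · subst h
      simp
    · exact Or.inl ((spec D).2.1 E h)
  let F : Filter ℕ :=
    { sets := {A | ∃ D, {n ∈ T D | ¬ Misses Aᶜ n}.Finite}
      univ_sets := ⟨fun _ => ∅, by simp [Misses]⟩
      sets_of_superset := by
        rintro A B ⟨D, hD⟩ hAB
        refine ⟨D, hD.subset ?_⟩
        rintro n ⟨hn1, hn2⟩
        refine ⟨hn1, fun hm => hn2 fun x hx => hm x fun hxA => hx (hAB hxA)⟩
      inter_sets := by
        have key : ∀ A B : Set ℕ, ∀ D E : ℕ → Set ℕ, {n ∈ T D | ¬ Misses Aᶜ n}.Finite →
            {n ∈ T E | ¬ Misses Bᶜ n}.Finite → (T D \ T E).Finite →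
            {n ∈ T D | ¬ Misses (A ∩ B)ᶜ n}.Finite := by
          intro A B D E hD hE hDE
          apply ((hD.union hE).union hDE).subset
          rintro n ⟨hn1, hn2⟩
          by_contra hcon
          simp only [Set.mem_union, Set.mem_ofPred_eq, Set.mem_sdiff, not_or, not_and,
            not_not] at hcon
          have hnE : n ∈ T E := hcon.2 hn1
          apply hn2
          intro x hx
          rw [Set.compl_inter] at hx
          rcases hx with hx | hx
          · exact hcon.1.1 hn1 x hx
          · exact hcon.1.2 hnE x hx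
        rintro A B ⟨D, hD⟩ ⟨E, hE⟩
        rcases hchain D E with h | h
        · exact ⟨D, key A B D E hD hE h⟩
        · refine ⟨E, ?_⟩
          rw [Set.inter_comm]
          exact key B A E D hE hD h }
  have hmem : ∀ A : Set ℕ, A ∈ F ↔ ∃ D, {n ∈ T D | ¬ Misses Aᶜ n}.Finite := fun A => Iff.rfl
  have hfree : IsFree F := by
    refine ⟨?_, ?_⟩
    · rw [Filter.neBot_iff]
      intro hbot
      have : (∅ : Set ℕ) ∈ F := by rw [hbot]; exact Filter.mem_bot
      rw [hmem] at this
      obtain ⟨D, hD⟩ := this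
      apply (spec D).1
      apply hD.subset
      intro n hn
      refine ⟨hn, fun hm => hm (fun _ => false) ?_⟩
      simp
    · intro A hA
      rw [hmem]
      exact ⟨fun _ => ∅, (not_misses_finite_of_finite hA).subset fun n hn => hn.2⟩
  refine ⟨F, hfree, ?_, ?_⟩
  · rintro ⟨D, hD, hdis, hM⟩
    rcases (spec D).2.2 hdis with ⟨m, hm⟩ | ⟨M, hM1, hM2⟩
    · have h1 := hD m
      unfold InIdeal at h1
      rw [hmem, compl_compl] at h1
      obtain ⟨E, hE⟩ := h1
      -- `T D ∩ T E` is infinite
      have hinf : (T D ∩ T E).Infinite := by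
        rcases hchain D E with h | h
        · have := ((spec D).1.sdiff h)
          apply this.mono
          rintro x ⟨hx1, hx2⟩
          refine ⟨hx1, ?_⟩
          by_contra hc
          exact hx2 ⟨hx1, hc⟩
        · have := ((spec E).1.sdiff h)
          apply this.mono
          rintro x ⟨hx1, hx2⟩
          refine ⟨?_, hx1⟩
          by_contra hc
          exact hx2 ⟨hx1, hc⟩
      apply hinf
      apply hE.subset
      rintro n ⟨hn1, hn2⟩
      exact ⟨hn2, hm n hn1⟩
    · apply hM M hM1
      unfold InIdeal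
      rw [hmem, compl_compl]
      refine ⟨D, ?_⟩
      have : {n ∈ T D | ¬ Misses (⋃ n ∈ M, D n) n} = ∅ := by
        rw [Set.eq_empty_iff_forall_notMem]
        rintro n ⟨hn1, hn2⟩
        apply hn2
        intro x hx
        simp only [Set.mem_iUnion, exists_prop] at hx
        obtain ⟨m, hm, hxm⟩ := hx
        exact hM2 n hn1 m hm x hxm
      rw [this]
      exact Set.finite_empty
  · intro μ hμ
    have hunc : Uncountable (ℕ → Bool) := by
      rw [← Cardinal.aleph0_lt_mk_iff]
      simp [Cardinal.aleph0_lt_continuum]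
    apply not_generated hfree (fun x : ℕ → Bool => branch x)
    · intro x hx
      rw [hmem, compl_compl] at hx
      obtain ⟨D, hD⟩ := hx
      apply (spec D).1
      apply hD.subset
      intro n hn
      exact ⟨hn, fun hm => hm x ⟨n, rfl⟩⟩
    · intro x y hxy
      exact branch_ad hxy
    · exact hμ

end CH

/-- There is (in ZFC, with no extra set-theoretic hypothesis) a free filter on the natural numbers
that is not conglomerated and is not generated by any statistical measure. -/
theorem result :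
    ∃ F : Filter ℕ, IsFree F ∧ ¬ Conglomerated F ∧
      ∀ μ : Set ℕ → ℝ, IsStatisticalMeasure μ → ¬ ∀ B, B ∈ F ↔ μ B = 1 := by
  rcases Cardinal.aleph_one_le_continuum.lt_or_eq with h | h
  · exact exists_of_notCH h
  · exact exists_of_CH h.symm

end Pool.Agent.Results.MP_aa1901_an.ZFCCounterexample
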